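import Pool.Agent.H31.BOU.Targets1

/-!
Grid points close to a frequency (target `T_CNT`), and the counting map.
-/

namespace Pool.Agent.H96.BOU

open Finset Pool.Agent.H31.BOU

/-- The integer `b - p * round (b / p - ζ)`. -/
noncomputable def sh (p : ℕ) (ζ : ℝ) (b : ℕ) : ℤ := (b : ℤ) - p * round ((b : ℝ) / p - ζ)

lemma sh_abs (p : ℕ) (ζ : ℝ) (hp : 0 < p) (b : ℕ) :
    |(sh p ζ b : ℝ) - p * ζ| = p * nd ((b : ℝ) / p - ζ) := by
  have hp' : (0 : ℝ) < p := by exact_mod_cast hp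
  have h1 : (sh p ζ b : ℝ) - p * ζ = p * ((b : ℝ) / p - ζ - round ((b : ℝ) / p - ζ)) := by
    unfold sh
    push_cast
    field_simp
    ring
  rw [h1, abs_mul, abs_of_pos hp']
  rfl

lemma sh_inj (p : ℕ) (ζ : ℝ) (b : ℕ) (hb : b < p) (c : ℕ) (hc : c < p)
    (h : sh p ζ b = sh p ζ c) : b = c := by
  unfold sh at h
  have h1 : (b : ℤ) - c = p * (round ((b : ℝ) / p - ζ) - round ((c : ℝ) / p - ζ)) := by
    linarith
  have h2 : (p : ℤ) ∣ (b : ℤ) - c := ⟨_, h1⟩
  have h3 : (b : ℤ) - c = 0 := by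
    apply Int.eq_zero_of_abs_lt_dvd h2
    rw [abs_lt]
    constructor
    · have : (0 : ℤ) ≤ b := by positivity
      have : (c : ℤ) < p := by exact_mod_cast hc
      linarith
    · have : (0 : ℤ) ≤ c := by positivity
      have : (b : ℤ) < p := by exact_mod_cast hb
      linarith
  omega

/-- The number of integers in a closed interval. -/
lemma card_int (S : Finset ℤ) (c d : ℝ) (hd : 0 ≤ d) (h : ∀ s ∈ S, |(s : ℝ) - c| ≤ d) :
    (S.card : ℝ) ≤ 2 * d + 1 := by
  have h1 : S ⊆ Finset.Icc ⌈c - d⌉ ⌊c + d⌋ := by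
    intro s hs
    have h2 := abs_le.1 (h s hs)
    rw [Finset.mem_Icc]
    constructor
    · exact Int.ceil_le.2 (by linarith [h2.1])
    · exact Int.le_floor.2 (by linarith [h2.2])
  have h2 := Finset.card_le_card h1
  rw [Int.card_Icc] at h2
  have h3 : (S.card : ℝ) ≤ (((⌊c + d⌋ + 1 - ⌈c - d⌉).toNat : ℕ) : ℝ) := by exact_mod_cast h2
  refine h3.trans ?_
  rcases le_total 0 (⌊c + d⌋ + 1 - ⌈c - d⌉) with h4 | h4
  · have h5 : (((⌊c + d⌋ + 1 - ⌈c - d⌉).toNat : ℕ) : ℝ) =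
        (((⌊c + d⌋ + 1 - ⌈c - d⌉ : ℤ)) : ℝ) := by
      have := Int.toNat_of_nonneg h4
      exact_mod_cast this
    rw [h5]
    push_cast
    have h6 := Int.floor_le (c + d)
    have h7 := Int.le_ceil (c - d)
    linarith
  · rw [Int.toNat_of_nonpos h4]
    push_cast
    linarith

theorem pf_CNT : T_CNT := by
  intro p ζ δ hp hδ
  have hp' : (0 : ℝ) < p := by exact_mod_cast hp
  set B := (range p).filter (fun b : ℕ => nd ((b : ℝ) / p - ζ) ≤ δ) with hB
  have h1 : (B.image (sh p ζ)).card = B.card := by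
    apply Finset.card_image_of_injOn
    intro b hb c hc h
    have hb' := Finset.mem_filter.1 (Finset.mem_coe.1 hb)
    have hc' := Finset.mem_filter.1 (Finset.mem_coe.1 hc)
    exact sh_inj p ζ b (Finset.mem_range.1 hb'.1) c (Finset.mem_range.1 hc'.1) h
  have h2 := card_int (B.image (sh p ζ)) (p * ζ) (p * δ) (by positivity) (by
    intro s hs
    obtain ⟨b, hb, rfl⟩ := Finset.mem_image.1 hs
    rw [sh_abs p ζ hp b]
    exact mul_le_mul_of_nonneg_left (Finset.mem_filter.1 hb).2 hp'.le)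
  rw [h1] at h2
  linarith

end Pool.Agent.H96.BOU
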