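import Pool.Agent.H31.BOU.Targets1

/-!
Grid points far from a frequency (target `T_TLQ`): the quadratic tail.
-/

namespace Pool.Agent.H96.BOU.TLQ

open Finset Pool.Agent.H31.BOU

/-- The integer `b - p * round (b / p - ζ)`. -/
noncomputable def sh (p : ℕ) (ζ : ℝ) (b : ℕ) : ℤ := (b : ℤ) - p * round ((b : ℝ) / p - ζ)

lemma sh_abs (p : ℕ) (ζ : ℝ) (hp : 0 < p) (b : ℕ) :
    |(sh p ζ b : ℝ) - p * ζ| = p * nd ((b : ℝ) / p - ζ) := by
  have hp' : (0 : ℝ) < p := by exact_mod_cast hp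
  have h1 : (sh p ζ b : ℝ) - p * ζ = p * ((b : ℝ) / p - ζ - round ((b : ℝ) / p - ζ)) := by
    unfold sh
    push_cast
    field_simp
    ring
  rw [h1, abs_mul, abs_of_pos hp']
  rfl

lemma sh_inj (p : ℕ) (ζ : ℝ) (b : ℕ) (hb : b < p) (c : ℕ) (hc : c < p)
    (h : sh p ζ b = sh p ζ c) : b = c := by
  unfold sh at h
  have h1 : (b : ℤ) - c = p * (round ((b : ℝ) / p - ζ) - round ((c : ℝ) / p - ζ)) := by
    linarith
  have h2 : (p : ℤ) ∣ (b : ℤ) - c := ⟨_, h1⟩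
  have h3 : (b : ℤ) - c = 0 := by
    apply Int.eq_zero_of_abs_lt_dvd h2
    rw [abs_lt]
    constructor
    · have : (0 : ℤ) ≤ b := by positivity
      have : (c : ℤ) < p := by exact_mod_cast hc
      linarith
    · have : (0 : ℤ) ≤ c := by positivity
      have : (b : ℤ) < p := by exact_mod_cast hb
      linarith
  omega

lemma tele (d : ℝ) (hd : 0 < d) (N : ℕ) :
    ∑ n ∈ range (N + 1), 1 / (d + n) ^ 2 ≤ 1 / d ^ 2 + 1 / d - 1 / (d + N) := by
  induction N with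
  | zero => simp
  | succ N ih =>
    rw [Finset.sum_range_succ]
    have h1 : 0 < d + N := by positivity
    have h2 : 0 < d + ((N + 1 : ℕ) : ℝ) := by positivity
    have h3 : 1 / (d + ((N + 1 : ℕ) : ℝ)) ^ 2 ≤ 1 / (d + N) - 1 / (d + ((N + 1 : ℕ) : ℝ)) := by
      rw [div_sub_div _ _ h1.ne' h2.ne', div_le_div_iff₀ (by positivity) (by positivity)]
      push_cast
      nlinarith [h1, h2]
    linarith

/-- Integers at distance at least `d` on the right of `c`. -/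
lemma right (S : Finset ℤ) (c d : ℝ) (hd : 0 < d) (h : ∀ s ∈ S, d ≤ (s : ℝ) - c) :
    ∑ s ∈ S, 1 / ((s : ℝ) - c) ^ 2 ≤ 1 / d ^ 2 + 1 / d := by
  set m : ℤ := ⌈c + d⌉ with hm
  have hmc : c + d ≤ (m : ℝ) := Int.le_ceil _
  have hS : ∀ s ∈ S, m ≤ s := by
    intro s hs
    exact Int.ceil_le.2 (by linarith [h s hs])
  have h1 : ∀ s ∈ S, 1 / ((s : ℝ) - c) ^ 2 ≤ 1 / (d + (((s - m).toNat : ℕ) : ℝ)) ^ 2 := by
    intro s hs
    have h2 : (((s - m).toNat : ℕ) : ℝ) = (s : ℝ) - m := by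
      have := Int.toNat_of_nonneg (sub_nonneg.2 (hS s hs))
      have h3 : (((s - m).toNat : ℤ) : ℝ) = ((s - m : ℤ) : ℝ) := by rw [this]
      push_cast at h3
      exact_mod_cast h3
    have h4 : (0 : ℝ) ≤ (s : ℝ) - m := by
      have : (m : ℝ) ≤ s := by exact_mod_cast hS s hs
      linarith
    rw [h2]
    apply one_div_le_one_div_of_le
    · positivity
    · apply pow_le_pow_left₀ (by positivity)
      linarith
  refine (Finset.sum_le_sum h1).trans ?_
  have hinj : Set.InjOn (fun s : ℤ => (s - m).toNat) (S : Set ℤ) := by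
    intro a ha b hb hab
    have h2 := hS a ha
    have h3 := hS b hb
    simp only at hab
    omega
  have h5 : ∑ s ∈ S, 1 / (d + (((s - m).toNat : ℕ) : ℝ)) ^ 2 =
      ∑ n ∈ S.image (fun s : ℤ => (s - m).toNat), 1 / (d + (n : ℝ)) ^ 2 := by
    rw [Finset.sum_image hinj]
  rw [h5]
  obtain ⟨N, hN⟩ : ∃ N : ℕ, ∀ n ∈ S.image (fun s : ℤ => (s - m).toNat), n < N + 1 := by
    refine ⟨(S.image (fun s : ℤ => (s - m).toNat)).sup id, ?_⟩
    intro n hn
    exact Nat.lt_succ_of_le (Finset.le_sup (f := id) hn)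
  have h6 : ∑ n ∈ S.image (fun s : ℤ => (s - m).toNat), 1 / (d + (n : ℝ)) ^ 2 ≤
      ∑ n ∈ range (N + 1), 1 / (d + (n : ℝ)) ^ 2 := by
    apply Finset.sum_le_sum_of_subset_of_nonneg
    · intro n hn
      exact Finset.mem_range.2 (hN n hn)
    · intro n _ _
      positivity
  have h7 := tele d hd N
  have h8 : 0 ≤ 1 / (d + (N : ℝ)) := by positivity
  linarith

/-- Integers at distance at least `d` on the left of `c`. -/
lemma left (S : Finset ℤ) (c d : ℝ) (hd : 0 < d) (h : ∀ s ∈ S, d ≤ c - (s : ℝ)) :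
    ∑ s ∈ S, 1 / ((s : ℝ) - c) ^ 2 ≤ 1 / d ^ 2 + 1 / d := by
  have h1 := right (S.image (fun s => -s)) (-c) d hd (by
    intro s hs
    obtain ⟨t, ht, rfl⟩ := Finset.mem_image.1 hs
    push_cast
    linarith [h t ht])
  rw [Finset.sum_image (fun a _ b _ hab => by simpa using hab)] at h1
  refine le_trans (le_of_eq ?_) h1
  apply Finset.sum_congr rfl
  intro s _
  push_cast
  congr 1
  ring

theorem pf_TLQ : T_TLQ := by
  intro p θ δ hp hδ
  have hp' : (0 : ℝ) < p := by exact_mod_cast hp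
  set B := (range p).filter (fun b : ℕ => δ ≤ nd ((b : ℝ) / p - θ)) with hB
  have hinj : Set.InjOn (sh p θ) (B : Set ℕ) := by
    intro b hb c hc h
    have hb' := Finset.mem_filter.1 (Finset.mem_coe.1 hb)
    have hc' := Finset.mem_filter.1 (Finset.mem_coe.1 hc)
    exact sh_inj p θ b (Finset.mem_range.1 hb'.1) c (Finset.mem_range.1 hc'.1) h
  have hterm : ∀ b ∈ B, 1 / nd ((b : ℝ) / p - θ) ^ 2 =
      (p : ℝ) ^ 2 * (1 / ((sh p θ b : ℝ) - p * θ) ^ 2) := by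
    intro b hb
    have h1 := sh_abs p θ hp b
    have h2 : δ ≤ nd ((b : ℝ) / p - θ) := (Finset.mem_filter.1 hb).2
    have h3 : 0 < nd ((b : ℝ) / p - θ) := lt_of_lt_of_le hδ h2
    rw [← sq_abs ((sh p θ b : ℝ) - p * θ), h1]
    field_simp
  rw [Finset.sum_congr rfl hterm, ← Finset.mul_sum]
  have himg : ∑ b ∈ B, 1 / ((sh p θ b : ℝ) - p * θ) ^ 2 =
      ∑ s ∈ B.image (sh p θ), 1 / ((s : ℝ) - p * θ) ^ 2 := by
    rw [Finset.sum_image hinj]
  rw [himg]
  set S := B.image (sh p θ) with hS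
  have hSd : ∀ s ∈ S, p * δ ≤ |(s : ℝ) - p * θ| := by
    intro s hs
    obtain ⟨b, hb, rfl⟩ := Finset.mem_image.1 hs
    rw [sh_abs p θ hp b]
    exact mul_le_mul_of_nonneg_left (Finset.mem_filter.1 hb).2 hp'.le
  have hpd : 0 < p * δ := by positivity
  have hR := right (S.filter (fun s : ℤ => (p : ℝ) * θ < s)) (p * θ) (p * δ) hpd (by
    intro s hs
    have h1 := Finset.mem_filter.1 hs
    have h2 := hSd s h1.1
    rwa [abs_of_pos (sub_pos.2 h1.2)] at h2)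
  have hL := left (S.filter (fun s : ℤ => ¬ (p : ℝ) * θ < s)) (p * θ) (p * δ) hpd (by
    intro s hs
    have h1 := Finset.mem_filter.1 hs
    have h2 := hSd s h1.1
    rw [abs_of_nonpos (by linarith [not_lt.1 h1.2])] at h2
    linarith)
  have hsum : ∑ s ∈ S, 1 / ((s : ℝ) - p * θ) ^ 2 =
      ∑ s ∈ S.filter (fun s : ℤ => (p : ℝ) * θ < s), 1 / ((s : ℝ) - p * θ) ^ 2 +
      ∑ s ∈ S.filter (fun s : ℤ => ¬ (p : ℝ) * θ < s), 1 / ((s : ℝ) - p * θ) ^ 2 :=
    (Finset.sum_filter_add_sum_filter_not S _ _).symm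
  rw [hsum]
  have h9 : (p : ℝ) ^ 2 * (1 / (p * δ) ^ 2 + 1 / (p * δ) + (1 / (p * δ) ^ 2 + 1 / (p * δ))) =
      2 / δ ^ 2 + 2 * p / δ := by
    field_simp
    ring
  rw [← h9]
  apply mul_le_mul_of_nonneg_left _ (by positivity)
  linarith

end Pool.Agent.H96.BOU.TLQ
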